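import Mathlib
import Pool.Agent.Lib.MP_d1f1b5_nt.QR.Final

/-!
The exponent `q = 5` of the Feit-Thompson conjecture.

* `no_div`: for a prime `p ≠ 5` the number `p⁴ + p³ + p² + p + 1` has no divisor `≡ 1 mod p` besides
  `1` and itself (Vieta descent);
* `prime_of_dvd`: hence `F(p,5)` is prime if it divides `F(5,p)`;
* `not_one_mod_four`: and then `p` is not `1` modulo `4`.
-/

set_option autoImplicit false

namespace Pool.Agent.Lib.MP_d1f1b5_nt.E5

open Pool.Agent.Lib.MP_d1f1b5_nt.QR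

/-- Vieta descent. -/
theorem descent (n : ℕ) : ∀ x y c : ℤ, 0 ≤ x → 0 ≤ y → x + y ≤ n →
    x ^ 2 + x + 1 - y + y ^ 2 = c * (x * y + 1) → ∃ t : ℤ, 0 ≤ t ∧ c = t ^ 2 + t + 1 := by
  induction n with
  | zero =>
    intro x y c hx hy hxy h
    have hx0 : x = 0 := by push_cast at hxy; omega
    have hy0 : y = 0 := by push_cast at hxy; omega
    subst hx0 hy0
    exact ⟨0, le_rfl, by linarith⟩
  | succ n ih =>
    intro x y c hx hy hxy h
    rcases hx.eq_or_lt with hx0 | hx0
    · subst hx0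
      rcases hy.eq_or_lt with hy0 | hy0
      · subst hy0
        exact ⟨0, le_rfl, by linarith⟩
      · exact ⟨y - 1, by omega, by linarith⟩
    rcases hy.eq_or_lt with hy0 | hy0
    · subst hy0
      exact ⟨x, hx, by linarith⟩
    have hc : 0 < c := by
      by_contra hcon
      push Not at hcon
      have h1 : 0 < x * y := mul_pos hx0 hy0
      nlinarith
    rcases le_or_gt y x with hle | hlt
    · -- replace `x` by `c y - 1 - x`
      have hprod : x * (c * y - 1 - x) = y ^ 2 - y + 1 - c := by linarith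
      have h0 : 0 ≤ c * y - 1 - x := by
        by_contra hcon
        push Not at hcon
        have h1 : c * y ≤ x := by omega
        have h2 : c ≤ x := by nlinarith
        have h3 : x * (c * y) ≤ x * x := mul_le_mul_of_nonneg_left h1 hx
        nlinarith
      have hlt : c * y - 1 - x < x := by
        by_contra hcon
        push Not at hcon
        have h3 : x * x ≤ x * (c * y - 1 - x) := mul_le_mul_of_nonneg_left hcon hx
        nlinarith
      apply ih (c * y - 1 - x) y c h0 hy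
      · push_cast at hxy ⊢
        omega
      · linarith [hprod]
    · have hprod : y * (c * x + 1 - y) = x ^ 2 + x + 1 - c := by linarith
      have h0 : 0 ≤ c * x + 1 - y := by
        by_contra hcon
        push Not at hcon
        have h1 : c * x + 2 ≤ y := by omega
        have h2 : c + 2 ≤ y := by nlinarith
        have h3 : y * 1 ≤ y * (y - 1 - c * x) := mul_le_mul_of_nonneg_left (by omega) hy
        nlinarith
      have hlt' : c * x + 1 - y < y := by
        by_contra hcon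
        push Not at hcon
        have h3 : y * y ≤ y * (c * x + 1 - y) := mul_le_mul_of_nonneg_left hcon hy
        nlinarith
      apply ih x (c * x + 1 - y) c hx h0
      · push_cast at hxy ⊢
        omega
      · linarith [hprod]

/-- No nontrivial divisors `≡ 1 mod p`. -/
theorem no_div {p : ℕ} (hp : p.Prime) (h5 : p ≠ 5) (a b : ℤ) (ha : 0 < a) (hab : a ≤ b) :
    (1 + a * p) * (1 + b * p) ≠ 1 + p + (p : ℤ) ^ 2 + (p : ℤ) ^ 3 + (p : ℤ) ^ 4 := by
  intro h
  have hp2 : (2 : ℤ) ≤ p := by exact_mod_cast hp.two_le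
  have hp0 : (p : ℤ) ≠ 0 := by omega
  have hpp : Prime (p : ℤ) := Nat.prime_iff_prime_int.mp hp
  have h1 : a + b + a * b * p = 1 + p + (p : ℤ) ^ 2 + (p : ℤ) ^ 3 := by
    have : (p : ℤ) * (a + b + a * b * p) = p * (1 + p + (p : ℤ) ^ 2 + (p : ℤ) ^ 3) := by
      linear_combination h
    exact mul_left_cancel₀ hp0 this
  obtain ⟨c, hc⟩ : (p : ℤ) ∣ a + b - 1 := ⟨1 + p + (p : ℤ) ^ 2 - a * b, by linear_combination h1⟩
  have h2 : a * b + c = 1 + p + (p : ℤ) ^ 2 := by
    have : (p : ℤ) * (a * b + c) = p * (1 + p + (p : ℤ) ^ 2) := by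
      linear_combination h1 - hc
    exact mul_left_cancel₀ hp0 this
  have hb : b = 1 + c * p - a := by linear_combination hc
  have h3 : (p : ℤ) ^ 2 + p + 1 - a + a ^ 2 = c * (p * a + 1) := by
    rw [hb] at h2
    linear_combination -h2
  obtain ⟨t, ht, hct⟩ := descent ((p : ℤ) + a).toNat p a c (by omega) ha.le
    (by rw [Int.toNat_of_nonneg (by omega)]) h3
  have hc1 : 1 ≤ c := by rw [hct]; nlinarith
  have haa : a * a ≤ a * b := mul_le_mul_of_nonneg_left hab ha.le
  have hap : a ≤ p := by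
    by_contra hcon
    push Not at hcon
    nlinarith
  have hcp : c ≤ p := by
    by_contra hcon
    push Not at hcon
    have h4 : (p + 1) * (p * a + 1) ≤ c * ((p : ℤ) * a + 1) := by
      apply mul_le_mul_of_nonneg_right (by omega)
      positivity
    have h5 : (p : ℤ) * a ≥ p := by nlinarith
    have h6 : a * a ≤ a * p := mul_le_mul_of_nonneg_left hap ha.le
    nlinarith
  have htp : t < p := by nlinarith
  have h4 : (a - t - 1) * (a + t) = p * (c * a - 1 - p) := by
    rw [hct] at h3 ⊢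
    linear_combination h3
  have h5' : (p : ℤ) ∣ (a - t - 1) * (a + t) := ⟨_, h4⟩
  rcases hpp.dvd_or_dvd h5' with ⟨k, hk⟩ | ⟨k, hk⟩
  · -- `a = t + 1`
    have hk0 : k = 0 := by
      by_contra hcon
      rcases lt_or_gt_of_ne hcon with h6 | h6
      · nlinarith
      · nlinarith
    rw [hk0, mul_zero] at hk
    have hat : a = t + 1 := by linarith
    have h6 : (p : ℤ) * (c * a - 1 - p) = 0 := by rw [← h4, hk, zero_mul]
    have h7 : c * a - 1 - p = 0 := (mul_eq_zero.1 h6).resolve_left hp0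
    have h8 : (p : ℤ) = t * (t ^ 2 + 2 * t + 2) := by
      rw [hct, hat] at h7
      linear_combination -h7
    have h9 : t ∣ (p : ℤ) := ⟨_, h8⟩
    have ht0 : t ≠ 0 := by
      rintro rfl
      rw [zero_mul] at h8
      exact hp0 h8
    lift t to ℕ using ht
    have h10 : t ∣ p := by exact_mod_cast h9
    rcases (Nat.dvd_prime hp).1 h10 with h11 | h11
    · apply h5
      rw [h11] at h8
      have : (p : ℤ) = 5 := by rw [h8]; norm_num
      exact_mod_cast this
    · rw [h11] at htp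
      exact lt_irrefl _ htp
  · have hk1 : k = 1 := by
      by_contra hcon
      rcases lt_or_gt_of_ne hcon with h6 | h6
      · nlinarith
      · nlinarith
    rw [hk1, mul_one] at hk
    have h6 : (p : ℤ) * (a - t - 1) = p * (c * a - 1 - p) := by
      rw [← h4, hk]; ring
    have h7 := mul_left_cancel₀ hp0 h6
    have h8 : a * (c - 2) = 0 := by linear_combination -h7 - hk
    have h9 : c = 2 := by
      rcases mul_eq_zero.1 h8 with h10 | h10
      · omega
      · linarith
    rw [h9] at hct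
    have h10 : t * (t + 1) = 1 := by linear_combination -hct
    have h11 : t ≤ 0 ∨ 1 ≤ t := by omega
    rcases h11 with h12 | h12
    · nlinarith
    · nlinarith

theorem FF_five (p : ℕ) : FF p 5 = 1 + p + p ^ 2 + p ^ 3 + p ^ 4 := by
  unfold FF
  simp [Finset.sum_range_succ]

/-- A prime divisor `l` of `F(p,5)` is `1` modulo `p`, if `F(p,5)` divides `F(5,p)`. -/
theorem l_mod {p : ℕ} (hp : p.Prime) (h2 : p ≠ 2) (hd : FF p 5 ∣ FF 5 p) {l : ℕ}
    (hl : l.Prime) (hlN : l ∣ FF p 5) : p ∣ l - 1 := by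
  have : Fact l.Prime := ⟨hl⟩
  have : Fact p.Prime := ⟨hp⟩
  have h1 : ((5 : ℕ) : ZMod l) ^ p = 1 := FF_pow (hlN.trans hd)
  have hodd : Odd p := hp.odd_of_ne_two h2
  have hl2 : l ≠ 2 := by
    rintro rfl
    have h3 : Odd (FF p 5) := FF_odd hodd (by decide)
    rw [← Nat.not_even_iff_odd] at h3
    exact h3 (even_iff_two_dvd.mpr hlN)
  have h5 : ((5 : ℕ) : ZMod l) ≠ 1 := by
    intro h
    have h4 : ((4 : ℕ) : ZMod l) = 0 := by
      have : ((5 : ℕ) : ZMod l) = ((4 : ℕ) : ZMod l) + 1 := by push_cast; norm_num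
      rw [this] at h
      simpa using h
    rw [ZMod.natCast_eq_zero_iff] at h4
    have h6 : l ∣ 2 := by
      have : l ∣ 2 ^ 2 := by simpa using h4
      exact hl.dvd_of_dvd_pow this
    exact hl2 ((Nat.prime_dvd_prime_iff_eq hl Nat.prime_two).1 h6)
  have h6 : orderOf ((5 : ℕ) : ZMod l) = p := orderOf_eq_prime h1 h5
  rw [← h6]
  apply orderOf_dvd_of_pow_eq_one
  apply ZMod.pow_card_sub_one_eq_one
  intro h7
  rw [h7, zero_pow hp.ne_zero] at h1
  exact zero_ne_one h1

/-- `F(p,5)` is prime if it divides `F(5,p)`. -/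
theorem prime_of_dvd {p : ℕ} (hp : p.Prime) (h2 : p ≠ 2) (h5 : p ≠ 5) (hd : FF p 5 ∣ FF 5 p) :
    (FF p 5).Prime := by
  have hp0 := hp.pos
  have hN : FF p 5 ≠ 1 := by
    rw [FF_five]
    omega
  obtain ⟨l, hl, hlN⟩ := Nat.exists_prime_and_dvd hN
  obtain ⟨a, ha⟩ := l_mod hp h2 hd hl hlN
  have hl1 : l = 1 + a * p := by
    have := hl.one_lt
    rw [mul_comm a p, ← ha]
    omega
  have ha0 : 0 < a := by
    rcases Nat.eq_zero_or_pos a with h | h
    · rw [h, zero_mul, add_zero] at hl1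
      exact absurd hl1 hl.one_lt.ne'
    · exact h
  obtain ⟨e, he⟩ := hlN
  have hN1 : FF p 5 ≡ 1 [MOD p] := FF_mod_base (by norm_num)
  have he1 : 1 ≡ e [MOD p] := by
    rw [he] at hN1
    have h3 : l * e ≡ 1 * e [MOD p] := by
      apply Nat.ModEq.mul_right
      rw [hl1]
      have : 1 + a * p ≡ 1 + 0 [MOD p] := by
        apply Nat.ModEq.add_left
        rw [Nat.modEq_zero_iff_dvd]
        exact Dvd.intro_left a rfl
      simpa using this
    rw [one_mul] at h3
    exact (h3.symm.trans hN1).symm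
  have hepos : 0 < e := by
    rcases Nat.eq_zero_or_pos e with h | h
    · rw [h, mul_zero, FF_five] at he
      omega
    · exact h
  obtain ⟨b, hb⟩ := (Nat.modEq_iff_dvd' hepos).1 he1
  have heb : e = 1 + b * p := by
    rw [mul_comm b p, ← hb]
    omega
  rcases Nat.eq_zero_or_pos b with hb0 | hb0
  · rw [hb0, zero_mul, add_zero] at heb
    rw [he, heb, mul_one]
    exact hl
  · exfalso
    have h6 : ((1 : ℤ) + a * p) * (1 + b * p) = 1 + p + (p : ℤ) ^ 2 + (p : ℤ) ^ 3 + (p : ℤ) ^ 4 := by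
      have h7 : FF p 5 = (1 + a * p) * (1 + b * p) := by rw [he, heb, ← hl1]
      rw [FF_five] at h7
      exact_mod_cast h7.symm
    rcases le_total a b with hab | hab
    · exact no_div hp h5 a b (by exact_mod_cast ha0) (by exact_mod_cast hab) h6
    · rw [mul_comm] at h6
      exact no_div hp h5 b a (by exact_mod_cast hb0) (by exact_mod_cast hab) h6

open NumberTheorySymbols in
/-- If `F(p,5)` is prime and divides `F(5,p)`, then `p` is not `1` modulo `4`. -/
theorem not_one_mod_four {p : ℕ} (hp : p.Prime) (h4 : p % 4 = 1) (hN : (FF p 5).Prime)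
    (hd : FF p 5 ∣ FF 5 p) : False := by
  have : Fact (FF p 5).Prime := ⟨hN⟩
  have hN8 : FF p 5 % 8 = 5 := by
    rw [FF_five]
    have h8 : p % 8 = 1 ∨ p % 8 = 5 := by omega
    rcases h8 with h | h <;> simp [Nat.add_mod, Nat.pow_mod, h]
  have hN4 : FF p 5 % 4 = 1 := by omega
  have hNodd : Odd (FF p 5) := Nat.odd_iff.2 (by omega)
  have h1 : ((5 : ℕ) : ZMod (FF p 5)) ^ p = 1 := FF_pow hd
  have hp5 : (p : ZMod (FF p 5)) ^ 5 = 1 := FF_pow dvd_rfl
  have hsum : (1 : ZMod (FF p 5)) + p + p ^ 2 + p ^ 3 + p ^ 4 = 0 := by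
    have h3 := FF_zmod (a := p) (n := 5) (l := FF p 5) dvd_rfl
    simp [Finset.sum_range_succ] at h3
    exact h3
  obtain ⟨j, hj⟩ : ∃ j, p = 2 * j + 1 := ⟨p / 2, by omega⟩
  set s : ZMod (FF p 5) := ((5 : ℕ) : ZMod (FF p 5)) ^ (j + 1) with hs
  have hs2 : s ^ 2 = 5 := by
    rw [hs, ← pow_mul]
    have : (j + 1) * 2 = p + 1 := by omega
    rw [this, pow_succ, h1, one_mul]
    norm_num
  have hsp : s ^ p = 1 := by
    rw [hs, ← pow_mul, mul_comm, pow_mul, h1, one_pow]
  have hssq : IsSquare s := by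
    refine ⟨s ^ (j + 1), ?_⟩
    rw [← pow_add]
    have : j + 1 + (j + 1) = p + 1 := by omega
    rw [this, pow_succ, hsp, one_mul]
  have hneg : IsSquare (-1 : ZMod (FF p 5)) := by
    rw [ZMod.exists_sq_eq_neg_one_iff]
    omega
  set G : ZMod (FF p 5) := p * (p - 1) ^ 2 * (p + 1) with hG
  have hG2 : G ^ 2 = 5 := by
    rw [hG]
    linear_combination ((p : ZMod (FF p 5)) ^ 4 - 3 * p ^ 3 + p ^ 2 + 5 * p - 5) * hsum
  have hGsq : IsSquare G := by
    have h3 : (G - s) * (G + s) = 0 := by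
      linear_combination hG2 - hs2
    rcases mul_eq_zero.1 h3 with h | h
    · rw [sub_eq_zero.1 h]; exact hssq
    · have : G = (-1) * s := by linear_combination h
      rw [this]
      exact hneg.mul hssq
  have hpsq : IsSquare (p : ZMod (FF p 5)) := ⟨(p : ZMod (FF p 5)) ^ 3, by
    linear_combination -(p : ZMod (FF p 5)) * hp5⟩
  have hG0 : G ≠ 0 := by
    intro h
    rw [h] at hG2
    have h5 : ((5 : ℕ) : ZMod (FF p 5)) = 0 := by
      push_cast
      rw [← hG2]; ring
    rw [h5, zero_pow hp.ne_zero] at h1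
    exact zero_ne_one h1
  have hp10 : (p : ZMod (FF p 5)) * ((p : ZMod (FF p 5)) - 1) ^ 2 ≠ 0 := by
    intro h
    apply hG0
    rw [hG, h, zero_mul]
  have hsq2 : IsSquare ((p : ZMod (FF p 5)) * ((p : ZMod (FF p 5)) - 1) ^ 2) :=
    hpsq.mul (even_two.isSquare_pow _)
  have hp1sq : IsSquare (((p + 1 : ℕ) : ZMod (FF p 5))) := by
    have h3 : ((p + 1 : ℕ) : ZMod (FF p 5)) = G * ((p : ZMod (FF p 5)) * ((p : ZMod (FF p 5)) - 1) ^ 2)⁻¹ := by
      rw [eq_mul_inv_iff_mul_eq₀ hp10, hG]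
      push_cast
      ring
    rw [h3]
    exact hGsq.mul hsq2.inv
  have hp1ne : ((p + 1 : ℕ) : ZMod (FF p 5)) ≠ 0 := by
    intro h
    apply hG0
    rw [hG]
    push_cast at h
    rw [h, mul_zero]
  have hJ1 : J(((p + 1 : ℕ) : ℤ) | FF p 5) = 1 := by
    rw [← jacobiSym.legendreSym.to_jacobiSym]
    rw [legendreSym.eq_one_iff]
    · exact_mod_cast hp1sq
    · exact_mod_cast hp1ne
  obtain ⟨k, hk⟩ : ∃ k, p + 1 = 2 * k := ⟨(p + 1) / 2, by omega⟩
  have hkodd : Odd k := Nat.odd_iff.2 (by omega)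
  have hJ2 : J(((p + 1 : ℕ) : ℤ) | FF p 5) = -1 := by
    rw [hk]
    push_cast
    rw [jacobiSym.mul_left, jacobiSym.at_two hNodd]
    have e1 : ZMod.χ₈ ((FF p 5 : ℕ) : ZMod 8) = -1 := by
      rw [ZMod.χ₈_nat_eq_if_mod_eight]
      rw [hN8]
      simp [show ¬ (FF p 5 % 2 = 0) from by omega]
    rw [e1, ← jacobiSym.quadratic_reciprocity_one_mod_four hN4 hkodd]
    have e2 : J(((FF p 5 : ℕ) : ℤ) | k) = 1 := by
      have h3 : FF p 5 % k = 1 % k := by
        have h4 : FF p 5 = 1 + k * (2 * p * (p ^ 2 + 1)) := by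
          rw [FF_five]
          have : 1 + k * (2 * p * (p ^ 2 + 1)) = 1 + (2 * k) * (p * (p ^ 2 + 1)) := by ring
          rw [this, ← hk]
          ring
        rw [h4, Nat.add_mul_mod_self_left]
      rw [jacobiSym.mod_left' (by exact_mod_cast h3 : ((FF p 5 : ℕ) : ℤ) % (k : ℤ) = (1 : ℤ) % (k : ℤ))]
      exact jacobiSym.one_left k
    rw [e2]
    norm_num
  rw [hJ1] at hJ2
  norm_num at hJ2

end Pool.Agent.Lib.MP_d1f1b5_nt.E5
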